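import Mathlib
import Pool.Agent.H68.Hil.Sullivan
import Pool.Agent.H91.Hil.Statement
import Pool.Agent.H14.HF.Statement
import Pool.Agent.H14.HF.Dim

/-! Hilali's inequality for the total spaces of fibrations over odd spheres with formal fibre. -/

open Pool.Agent.H68.Sullivan Pool.Agent.H91.HilStatement Pool.Agent.H14.HFStatement in
/-- Let `(ΛV, d)` be a minimal Sullivan algebra over a field `K` of characteristic zero, `V` having
`q` generators of even degree and `m + 1` generators `y_0, .., y_m` of odd degree, all of degree at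
least `2`. Suppose that `y_0` is closed and that the cohomology of the quotient `(ΛW, dF)` of
`(ΛV, d)` by the ideal of `y_0` is finite dimensional. If `(ΛW, dF)` is formal, or if `m`
cohomology classes of positive degree of it have a product which is not zero, then
`dim V = q + (m + 1) ≤ 2 (m + 1) ≤ dim H(ΛV, d)`. -/
theorem Pool.Agent.Results.MP_f3dd62_gt.FormalFibre.result.{u}
    (K : Type u) [Field K] [CharZero K] (q m : ℕ) (deg : Fin q ⊕ Fin (m + 1) → ℕ)
    (d : Lam K q (m + 1) →ₗ[K] Lam K q (m + 1)) (hd : IsMin deg d)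
    (dF : Lam K q m →ₗ[K] Lam K q m) (p : Lam K q (m + 1) →ₐ[K] Lam K q m)
    (hp : IsFibre d dF p) (hfin : FiniteDimensional K (Coh dF))
    (hF : IsFormal (degF deg) dF ∨ HasCup (degF deg) dF m) :
    FiniteDimensional K (Coh d) ∧ q + (m + 1) ≤ 2 * (m + 1) ∧
      2 * (m + 1) ≤ Module.finrank K (Coh d) := by
  obtain ⟨h1, h2, h3⟩ := Pool.Agent.H14.HF.final deg hp hd hfin
  obtain ⟨hd', -⟩ := Pool.Agent.H14.HF.fib_of deg hp hd
  have h4 := Pool.Agent.H14.HF.even_le_odd hd' hfin
  exact ⟨h1, by omega, hF.elim h3 (h2 m)⟩
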