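import Mathlib
import Pool.Agent.H68.Hil.Sullivan
import Pool.Agent.H68.Hil.Bridge

/-! The Hilali inequality for minimal Sullivan algebras whose differential has homogeneous even
word length, in particular for coformal elliptic spaces. -/

open Pool.Agent.H68.Sullivan in
/-- Let `(ΛV, d)` be a finitely generated minimal Sullivan algebra, `V` having `q` generators of
even degree and `m` of odd degree, all of degree at least `2`, whose differential maps every
generator into the elements of word length `k`, with `k` even and positive. If its cohomology
is finite dimensional, then `dim V = q + m ≤ 2 m ≤ dim H(ΛV, d)`. -/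
theorem Pool.Agent.Results.MP_f3dd62_gt.HilaliCoformal.result
    (K : Type*) [Field K] (q m k : ℕ) (deg : Fin q ⊕ Fin m → ℕ) (hk : Even k) (hk0 : 0 < k)
    (d : Lam K q m →ₗ[K] Lam K q m) (hd : IsDiff deg k d) (hfin : FiniteDimensional K (Coh d)) :
    q + m ≤ 2 * m ∧ 2 * m ≤ Module.finrank K (Coh d) := by
  have hd' : Pool.Agent.H68.Hil.IsDif K (gen K q m) deg k d :=
    { even_deg := hd.even_deg
      odd_deg := hd.odd_deg
      two_le_deg := hd.two_le_deg
      sq_zero := hd.sq_zero
      leibniz := hd.leibniz
      map_gen := hd.map_gen }
  have h := Pool.Agent.H68.Hil.main (isMon K q m) hk hk0 hd' hfin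
  exact ⟨by omega, h.2⟩
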