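import Mathlib
import Pool.Agent.H68.Hil.Sullivan
import Pool.Agent.H91.Hil.Statement
import Pool.Agent.H14.HF.Statement
import Pool.Agent.H14.HF.StatementH
import Pool.Agent.H14.HF.FinalTwo

/-! Hilali's inequality for the total spaces of fibrations over products of two odd spheres with
formal or coformal fibre. -/

open Pool.Agent.H68.Sullivan Pool.Agent.H91.HilStatement Pool.Agent.H14.HFStatement in
/-- Let `(ΛV, d)` be a minimal Sullivan algebra over a field `K` of characteristic zero, `V` having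
`q` generators of even degree and `m + 2` generators `y_0, .., y_{m+1}` of odd degree, all of degree
at least `2`. Suppose that `y_0` and `y_1` are closed, let `(ΛV_1, d_1)` be the quotient of
`(ΛV, d)` by the ideal of `y_0` and `(ΛW, dF)` the quotient of `(ΛV_1, d_1)` by the ideal of the
image of `y_1`, and suppose that the cohomology of `(ΛW, dF)` is finite dimensional. If `(ΛW, dF)`
is formal, or if `m` cohomology classes of positive degree of it have a product which is not zero,
or if `dF` maps every generator into the elements of word length `k`, for some `k ≥ 2` (for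
`k = 2`: if the fibre is coformal), then `dim V = q + (m + 2) ≤ 2 (m + 1) ≤ dim H(ΛV, d)`. -/
theorem Pool.Agent.Results.MP_f3dd62_gt.TwoOddSpheres.result.{u}
    (K : Type u) [Field K] [CharZero K] (q m : ℕ) (deg : Fin q ⊕ Fin (m + 1 + 1) → ℕ)
    (d : Lam K q (m + 1 + 1) →ₗ[K] Lam K q (m + 1 + 1)) (hd : IsMin deg d)
    (d₁ : Lam K q (m + 1) →ₗ[K] Lam K q (m + 1))
    (p₁ : Lam K q (m + 1 + 1) →ₐ[K] Lam K q (m + 1)) (hp₁ : IsFibre d d₁ p₁)
    (dF : Lam K q m →ₗ[K] Lam K q m) (p₂ : Lam K q (m + 1) →ₐ[K] Lam K q m)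
    (hp₂ : IsFibre d₁ dF p₂) (hy : d (genY K q (m + 1 + 1) 1) = 0)
    (hfin : FiniteDimensional K (Coh dF))
    (hF : IsFormal (degF (degF deg)) dF ∨ HasCup (degF (degF deg)) dF m ∨
      ∃ k, 2 ≤ k ∧ IsHomog (degF (degF deg)) k dF) :
    FiniteDimensional K (Coh d) ∧ q + (m + 2) ≤ 2 * (m + 1) ∧
      2 * (m + 1) ≤ Module.finrank K (Coh d) := by
  obtain ⟨h1, h2, h3, h4⟩ := Pool.Agent.H14.HF.final2 deg hp₁ hp₂ hy hd hfin
  rcases hF with hF | hF | ⟨k, hk, hF⟩
  · exact ⟨(h2 hF).1, by omega, (h2 hF).2⟩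
  · exact ⟨(h1 hF).1, by omega, (h1 hF).2⟩
  · obtain ⟨κ, rfl⟩ : ∃ κ, k = κ + 2 := ⟨k - 2, by omega⟩
    exact ⟨(h3 κ hF).1, by omega, (h3 κ hF).2⟩
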